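import Pool.Agent.N936.TC.Stm

/-! PROJECT TC (helper936), MP_cdfe0d_gt, leaf CONN: the suspension is connected. -/

set_option autoImplicit false

namespace Pool.Agent.N79.TC

open Set Topology Pool.Agent.N936.TC

theorem t_CONN : Pool.Agent.N936.TC.S_CONN := by
  intro σ X _ Φ hM hT
  haveI : Nonempty X := ⟨Φ (fun _ => false, false, 0)⟩
  haveI : PreconnectedSpace X := by
    rw [preconnectedSpace_iff_clopen]
    intro E hE
    have hpath : ∀ (q : Q) (i : Bool) (s : I), Φ (q, i, s) ∈ E ↔ Φ (q, i, 0) ∈ E := by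
      intro q i s
      have hf : Continuous fun s : I => Φ (q, i, s) := hM.cont.comp (by fun_prop)
      have hc : IsClopen ((fun s : I => Φ (q, i, s)) ⁻¹' E) := hE.preimage hf
      rcases isClopen_iff.1 hc with h | h
      · have h1 : ¬ Φ (q, i, s) ∈ E := fun h2 => by
          have h3 : s ∈ (fun s : I => Φ (q, i, s)) ⁻¹' E := h2
          rw [h] at h3
          exact h3
        have h1' : ¬ Φ (q, i, 0) ∈ E := fun h2 => by
          have h3 : (0 : I) ∈ (fun s : I => Φ (q, i, s)) ⁻¹' E := h2
          rw [h] at h3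
          exact h3
        exact iff_of_false h1 h1'
      · have h1 : s ∈ (fun s : I => Φ (q, i, s)) ⁻¹' E := by rw [h]; trivial
        have h1' : (0 : I) ∈ (fun s : I => Φ (q, i, s)) ⁻¹' E := by rw [h]; trivial
        exact iff_of_true h1 h1'
    have hg : Continuous fun q : Q => Φ (q, false, 0) := hM.cont.comp (by fun_prop)
    have hD : IsClopen ((fun q : Q => Φ (q, false, 0)) ⁻¹' E) := hE.preimage hg
    have hinv : ∀ i q, q ∈ ((fun q : Q => Φ (q, false, 0)) ⁻¹' E) ↔
        σ i q ∈ ((fun q : Q => Φ (q, false, 0)) ⁻¹' E) := by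
      intro i q
      show Φ (q, false, 0) ∈ E ↔ Φ (σ i q, false, 0) ∈ E
      rw [hM.bot q false i, ← hM.top q i false, hpath q i 1]
    rcases hT _ hD hinv with h | h
    · left
      refine Set.eq_empty_of_forall_notMem fun x hx => ?_
      obtain ⟨⟨q, i, s⟩, rfl⟩ := hM.surj x
      have h1 : Φ (q, false, 0) ∈ E := by
        rw [hM.bot q false i, ← hpath q i s]
        exact hx
      have h2 : q ∈ ((fun q : Q => Φ (q, false, 0)) ⁻¹' E) := h1
      rw [h] at h2
      exact h2
    · right
      refine Set.eq_univ_of_forall fun x => ?_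
      obtain ⟨⟨q, i, s⟩, rfl⟩ := hM.surj x
      have h2 : q ∈ ((fun q : Q => Φ (q, false, 0)) ⁻¹' E) := by rw [h]; trivial
      have h1 : Φ (q, false, 0) ∈ E := h2
      rw [hpath q i s, ← hM.bot q false i]
      exact h1
  exact { toPreconnectedSpace := inferInstance, toNonempty := inferInstance }

end Pool.Agent.N79.TC
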